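import Mathlib
import Pool.Agent.Lib.helper13.CptD

set_option autoImplicit false

open Set TopologicalSpace
open scoped ContDiff Manifold

namespace Pool.Agent.Results.MP_55ec57_gt.IsLie

theorem result (G : Type) [Group G] [TopologicalSpace G] [IsTopologicalGroup G] [T2Space G]
    [CountablyCompactSpace G]
    (minimal : ∀ (H : Type) [Group H] [TopologicalSpace H] [IsTopologicalGroup H] [T2Space H]
      (f : G ≃* H), Continuous f → Continuous f.symm)
    (propZ : ∀ L : Subgroup G, IsClosed (L : Set G) →
      IsTopologicalBasis {U : Set L | IsClopen U} → DiscreteTopology L) :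
    CompactSpace G ∧
      ∃ (d : ℕ) (_ : ChartedSpace (EuclideanSpace ℝ (Fin d)) G), LieGroup (𝓡 d) ω G :=
  have h := Lib.helper13.CptD.main Lib.helper13.CptD.cc_pc minimal fun L a b _ => propZ L a b
  ⟨h.1, h.2.2⟩

end Pool.Agent.Results.MP_55ec57_gt.IsLie
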